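import Pool.Agent.Helper67.DO.DefsC

/-!
# MP_d07457_gt, module C6: the chain identity
-/

namespace Pool.Agent.Helper67.DO

open scoped BigOperators Real
open MeasureTheory

noncomputable section

theorem c6_bC_ne (s0 : ℝ) (ns N M : ℕ) (j : ℤ) (hMN : M ≠ N) (th : ℕ × ℤ → ℝ) (t : ℝ) :
    bC s0 ns N (Function.update th (M, j) t) = bC s0 ns N th := by
  funext z
  unfold bC
  congr 1
  refine Finset.sum_congr rfl fun i _ => ?_
  rw [Function.update_of_ne]
  intro h
  exact hMN (Prod.ext_iff.1 h).1.symm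

theorem c6_CC_ne (s0 : ℝ) (ns N M : ℕ) (j : ℤ) (hMN : M ≠ N) (th : ℕ × ℤ → ℝ) (t : ℝ) :
    CC s0 ns N (Function.update th (M, j) t) = CC s0 ns N th := by
  funext z
  unfold CC
  rw [c6_bC_ne s0 ns N M j hMN th t]

theorem c6_bC_eq (s0 : ℝ) (ns N : ℕ) (j : ℤ) (hj : j ∈ frC ns N) (th : ℕ × ℤ → ℝ) (t : ℝ) (z : ℂ) :
    bC s0 ns N (Function.update th (N, j) t) z
      = bC s0 ns N th z + (delC s0 ns N : ℂ) * phiC s0 N j z * ((t : ℂ) - (th (N, j) : ℂ)) := by
  have h1 : ∑ i ∈ frC ns N, ((Function.update th (N, j) t (N, i) : ℝ) : ℂ) * phiC s0 N i z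
      = ∑ i ∈ frC ns N, (th (N, i) : ℂ) * phiC s0 N i z
        + phiC s0 N j z * ((t : ℂ) - (th (N, j) : ℂ)) := by
    rw [← Finset.add_sum_erase _ _ hj, ← Finset.add_sum_erase (frC ns N)
      (fun i => (th (N, i) : ℂ) * phiC s0 N i z) hj]
    have h2 : ∑ i ∈ (frC ns N).erase j, ((Function.update th (N, j) t (N, i) : ℝ) : ℂ) * phiC s0 N i z
        = ∑ i ∈ (frC ns N).erase j, (th (N, i) : ℂ) * phiC s0 N i z := by
      refine Finset.sum_congr rfl fun i hi => ?_
      rw [Function.update_of_ne]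
      intro h
      exact (Finset.ne_of_mem_erase hi) (Prod.ext_iff.1 h).2
    rw [h2, Function.update_self]
    ring
  unfold bC
  rw [h1]
  ring

theorem c6_eta_ge (s0 : ℝ) (ns : ℕ) (M : ℕ) (j : ℤ) (th : ℕ × ℤ → ℝ) (t : ℝ) :
    ∀ N : ℕ, N ≤ M → etaN s0 ns (Function.update th (M, j) t) N = etaN s0 ns th N := by
  intro N
  induction N with
  | zero => intro _; rfl
  | succ N ih =>
    intro h
    funext z
    show CC s0 ns N (Function.update th (M, j) t) (etaN s0 ns (Function.update th (M, j) t) N z)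
      = CC s0 ns N th (etaN s0 ns th N z)
    rw [ih (by omega), c6_CC_ne s0 ns N M j (by omega) th t]

theorem c6_eta_diff (s0 : ℝ) (ns : ℕ) (th : ℕ × ℤ → ℝ)
    (hb : ∀ N, Differentiable ℂ (bC s0 ns N th)) :
    (∀ N, Differentiable ℂ (CC s0 ns N th)) ∧ (∀ N, Differentiable ℂ (etaN s0 ns th N)) := by
  have h1 : ∀ N, Differentiable ℂ (CC s0 ns N th) := by
    intro N
    have : CC s0 ns N th = fun z => z + bC s0 ns N th z := rfl
    rw [this]
    exact differentiable_id.add (hb N)
  refine ⟨h1, ?_⟩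
  intro N
  induction N with
  | zero =>
    have : etaN s0 ns th 0 = fun z => z := rfl
    rw [this]
    exact differentiable_id
  | succ N ih =>
    have : etaN s0 ns th (N + 1) = (CC s0 ns N th) ∘ (etaN s0 ns th N) := rfl
    rw [this]
    exact (h1 N).comp ih

theorem c6_eta_real (s0 : ℝ) (ns : ℕ) (th : ℕ × ℤ → ℝ)
    (hr : ∀ N, ∀ x : ℝ, (bC s0 ns N th x).im = 0) (y : ℝ) :
    ∀ N, (etaN s0 ns th N y).im = 0 := by
  intro N
  induction N with
  | zero =>
    show ((y : ℂ)).im = 0
    exact Complex.ofReal_im y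
  | succ N ih =>
    show (etaN s0 ns th N y + bC s0 ns N th (etaN s0 ns th N y)).im = 0
    have h : etaN s0 ns th N y = (((etaN s0 ns th N y).re : ℝ) : ℂ) := by
      apply Complex.ext
      · simp
      · simp [ih]
    rw [Complex.add_im, ih]
    rw [h, hr]
    simp

/-- derivative with respect to a parameter -/
theorem c6_hasDeriv (s0 : ℝ) (ns : ℕ) (th : ℕ × ℤ → ℝ)
    (hb : ∀ N, Differentiable ℂ (bC s0 ns N th)) (M : ℕ) (j : ℤ) (hj : j ∈ frC ns M) (z : ℂ) :
    (HasDerivAt (fun t : ℝ => etaN s0 ns (Function.update th (M, j) t) (M + 1) z)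
      ((delC s0 ns M : ℂ) * phiC s0 M j (etaN s0 ns th M z)) (th (M, j))) ∧
    (∀ N, M + 1 ≤ N → DifferentiableAt ℝ (fun t : ℝ => etaN s0 ns (Function.update th (M, j) t) N z)
      (th (M, j))) ∧
    (∀ N, M + 1 ≤ N → deriv (fun t : ℝ => etaN s0 ns (Function.update th (M, j) t) (N + 1) z) (th (M, j))
      = deriv (CC s0 ns N th) (etaN s0 ns th N z) *
        deriv (fun t : ℝ => etaN s0 ns (Function.update th (M, j) t) N z) (th (M, j))) := by
  have hself : ∀ N, etaN s0 ns (Function.update th (M, j) (th (M, j))) N = etaN s0 ns th N := by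
    intro N; rw [Function.update_eq_self]
  have h0 : HasDerivAt (fun t : ℝ => etaN s0 ns (Function.update th (M, j) t) (M + 1) z)
      ((delC s0 ns M : ℂ) * phiC s0 M j (etaN s0 ns th M z)) (th (M, j)) := by
    have e : (fun t : ℝ => etaN s0 ns (Function.update th (M, j) t) (M + 1) z)
        = fun t : ℝ => CC s0 ns M th (etaN s0 ns th M z) +
          (delC s0 ns M : ℂ) * phiC s0 M j (etaN s0 ns th M z) * ((t : ℂ) - (th (M, j) : ℂ)) := by
      funext t
      show etaN s0 ns (Function.update th (M, j) t) M z + bC s0 ns M (Function.update th (M, j) t)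
        (etaN s0 ns (Function.update th (M, j) t) M z) = _
      rw [c6_eta_ge s0 ns M j th t M le_rfl, c6_bC_eq s0 ns M j hj th t]
      unfold CC
      ring
    rw [e]
    have h1 : HasDerivAt (fun t : ℝ => ((t : ℂ) - (th (M, j) : ℂ))) 1 (th (M, j)) := by
      have := (Complex.ofRealCLM.hasDerivAt (x := th (M, j)))
      simpa using this.sub_const (th (M, j) : ℂ)
    have h2 := (h1.const_mul ((delC s0 ns M : ℂ) * phiC s0 M j (etaN s0 ns th M z))).const_add
      (CC s0 ns M th (etaN s0 ns th M z))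
    simpa using h2
  have hstep : ∀ N, M + 1 ≤ N →
      DifferentiableAt ℝ (fun t : ℝ => etaN s0 ns (Function.update th (M, j) t) N z) (th (M, j)) →
      HasDerivAt (fun t : ℝ => etaN s0 ns (Function.update th (M, j) t) (N + 1) z)
        (deriv (CC s0 ns N th) (etaN s0 ns th N z) *
        deriv (fun t : ℝ => etaN s0 ns (Function.update th (M, j) t) N z) (th (M, j))) (th (M, j)) := by
    intro N hN hd
    have e : (fun t : ℝ => etaN s0 ns (Function.update th (M, j) t) (N + 1) z)
        = fun t : ℝ => CC s0 ns N th (etaN s0 ns (Function.update th (M, j) t) N z) := by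
      funext t
      show CC s0 ns N (Function.update th (M, j) t) _ = _
      rw [c6_CC_ne s0 ns N M j (by omega) th t]
    rw [e]
    have hC := ((c6_eta_diff s0 ns th hb).1 N (etaN s0 ns th N z)).hasDerivAt
    have hC' : HasDerivAt (CC s0 ns N th) (deriv (CC s0 ns N th) (etaN s0 ns th N z))
        ((fun t : ℝ => etaN s0 ns (Function.update th (M, j) t) N z) (th (M, j))) := by
      show HasDerivAt (CC s0 ns N th) (deriv (CC s0 ns N th) (etaN s0 ns th N z))
        (etaN s0 ns (Function.update th (M, j) (th (M, j))) N z)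
      rw [hself N]
      exact hC
    exact HasDerivAt.comp_of_eq (th (M, j)) hC' hd.hasDerivAt rfl
  have hall : ∀ N, M + 1 ≤ N → DifferentiableAt ℝ
      (fun t : ℝ => etaN s0 ns (Function.update th (M, j) t) N z) (th (M, j)) := by
    intro N hN
    induction N, hN using Nat.le_induction with
    | base => exact h0.differentiableAt
    | succ N hN ih => exact (hstep N hN ih).differentiableAt
  exact ⟨h0, hall, fun N hN => (hstep N hN (hall N hN)).deriv⟩

theorem st_C6 (h2 : ST_C2) (h3 : ST_C3) : ST_C6 := by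
  intro s0 ns hs0 hs1 hns th hth κ hκ
  obtain ⟨K, hK⟩ := hκ.bdd
  have hb : ∀ N, Differentiable ℂ (bC s0 ns N th) := fun N => (h2 s0 ns N hs0 hs1 hns th hth).1
  have hr : ∀ N, ∀ x : ℝ, (bC s0 ns N th x).im = 0 := fun N => (h2 s0 ns N hs0 hs1 hns th hth).2.2.1
  have hD := c6_eta_diff s0 ns th hb
  intro N y
  induction N with
  | zero =>
    have e : etaN s0 ns th 0 = fun z => z := rfl
    have e2 : kapN s0 ns th κ 0 = fun z => κ z := rfl
    rw [e, e2]
    simp
  | succ N ih =>
    set w : ℂ := etaN s0 ns th N y with hw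
    have hwr : w = ((w.re : ℝ) : ℂ) := by
      apply Complex.ext
      · simp
      · simp [hw, c6_eta_real s0 ns th hr y N]
    have hid := (h3 s0 ns hs0 hs1 hns th hth κ K hκ hK N).2.2.2 w.re
    rw [← hwr] at hid
    have hlast : ∑ j ∈ frC ns N,
        deriv (fun t : ℝ => etaN s0 ns (Function.update th (N, j) t) (N + 1) y) (th (N, j)) * BC s0 ns th κ N j
        = (delC s0 ns N : ℂ) * ∑ j ∈ frC ns N, BC s0 ns th κ N j * phiC s0 N j w := by
      rw [Finset.mul_sum]
      refine Finset.sum_congr rfl fun j hj => ?_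
      rw [(c6_hasDeriv s0 ns th hb N j hj y).1.deriv]
      ring
    have hfirst : ∑ M ∈ Finset.range N, ∑ j ∈ frC ns M,
        deriv (fun t : ℝ => etaN s0 ns (Function.update th (M, j) t) (N + 1) y) (th (M, j)) * BC s0 ns th κ M j
        = deriv (CC s0 ns N th) w * ∑ M ∈ Finset.range N, ∑ j ∈ frC ns M,
          deriv (fun t : ℝ => etaN s0 ns (Function.update th (M, j) t) N y) (th (M, j)) * BC s0 ns th κ M j := by
      rw [Finset.mul_sum]
      refine Finset.sum_congr rfl fun M hM => ?_
      rw [Finset.mul_sum]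
      refine Finset.sum_congr rfl fun j hj => ?_
      rw [(c6_hasDeriv s0 ns th hb M j hj y).2.2 N (by have := Finset.mem_range.1 hM; omega)]
      ring
    have hder : deriv (etaN s0 ns th (N + 1)) y
        = deriv (CC s0 ns N th) w * deriv (etaN s0 ns th N) y := by
      have e : etaN s0 ns th (N + 1) = (CC s0 ns N th) ∘ (etaN s0 ns th N) := rfl
      rw [e]
      exact deriv_comp _ (hD.1 N _) (hD.2 N _)
    have hval : etaN s0 ns th (N + 1) y = CC s0 ns N th w := rfl
    rw [Finset.sum_range_succ, hfirst, hlast, ih, hder, hval]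
    have := hid
    linear_combination (-1 : ℂ) * this

end

end Pool.Agent.Helper67.DO
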