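import Pool.Agent.Helper67.DO.StmtsW2
import Pool.Agent.Helper30.DO.W7
import Pool.Agent.Helper3.DO.W4

/-!
# MP_d07457_gt, module W5l: linearity of the window operators
-/

namespace Pool.Agent.Helper67.DO

open scoped BigOperators Real
open Set

noncomputable section

/-- linear functionals on continuous functions -/
def w5l_L {X : Type} [TopologicalSpace X] (C : Set X) (Λ : (X → ℂ) → ℂ) : Prop :=
  ∀ (f g : X → ℂ) (c : ℂ), ContinuousOn f C → ContinuousOn g C →
    Λ (fun ζ => c * f ζ + g ζ) = c * Λ f + Λ g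

theorem w5l_seg {C : Set ℂ} {a b : ℝ} (hab : a ≤ b) {γ : ℝ → ℂ} (hγ : Continuous γ)
    (h1 : ∀ x ∈ Icc a b, γ x ∈ C) : w5l_L C (fun f => ∫ x in a..b, f (γ x)) := by
  intro f g c hf hg
  have h2 : ∀ f : ℂ → ℂ, ContinuousOn f C → IntervalIntegrable (fun x => f (γ x)) MeasureTheory.volume a b := by
    intro f hf
    apply ContinuousOn.intervalIntegrable
    rw [uIcc_of_le hab]
    exact hf.comp hγ.continuousOn h1
  show ∫ x in a..b, (c * f (γ x) + g (γ x)) = c * (∫ x in a..b, f (γ x)) + ∫ x in a..b, g (γ x)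
  rw [intervalIntegral.integral_add ((h2 f hf).const_mul c) (h2 g hg),
    intervalIntegral.integral_const_mul]

theorem w5l_sub {C : Set ℂ} {Λ Λ' : (ℂ → ℂ) → ℂ} (h : w5l_L C Λ) (h' : w5l_L C Λ') :
    w5l_L C (fun f => Λ f - Λ' f) := by
  intro f g c hf hg
  show Λ _ - Λ' _ = _
  rw [h f g c hf hg, h' f g c hf hg]
  ring

theorem w5l_mul {C : Set ℂ} {Λ : (ℂ → ℂ) → ℂ} (e : ℂ) (h : w5l_L C Λ) :
    w5l_L C (fun f => e * Λ f) := by
  intro f g c hf hg
  show e * Λ _ = _
  rw [h f g c hf hg]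
  ring

theorem w5l_zero {C : Set ℂ} : w5l_L C (fun _ => 0) := by
  intro f g c _ _
  simp

theorem w5l_hor {C : Set ℂ} {a b σ : ℝ} (hab : a ≤ b) (hσ : 0 < σ)
    (h1 : ∀ z : ℂ, |z.im| = σ → a ≤ z.re → z.re ≤ b → z ∈ C) :
    w5l_L C (fun f => ∫ x in a..b, (f (x - σ * Complex.I) - f (x + σ * Complex.I))) := by
  intro f g c hf hg
  have hA : ∀ x ∈ Icc a b, (x : ℂ) - σ * Complex.I ∈ C := fun x hx =>
    h1 _ (by simp [abs_of_pos hσ]) (by simpa using hx.1) (by simpa using hx.2)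
  have hB : ∀ x ∈ Icc a b, (x : ℂ) + σ * Complex.I ∈ C := fun x hx =>
    h1 _ (by simp [abs_of_pos hσ]) (by simpa using hx.1) (by simpa using hx.2)
  have h2 : ∀ f : ℂ → ℂ, ContinuousOn f C →
      IntervalIntegrable (fun x : ℝ => f (x - σ * Complex.I) - f (x + σ * Complex.I)) MeasureTheory.volume a b := by
    intro f hf
    apply ContinuousOn.intervalIntegrable
    rw [uIcc_of_le hab]
    exact (hf.comp (f := fun x : ℝ => (x : ℂ) - σ * Complex.I) (by fun_prop) hA).sub
      (hf.comp (f := fun x : ℝ => (x : ℂ) + σ * Complex.I) (by fun_prop) hB)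
  have h3 : (∫ x in a..b, ((c * f (x - σ * Complex.I) + g (x - σ * Complex.I)) -
      (c * f (x + σ * Complex.I) + g (x + σ * Complex.I)))) =
      ∫ x in a..b, (c * (f (x - σ * Complex.I) - f (x + σ * Complex.I)) +
        (g (x - σ * Complex.I) - g (x + σ * Complex.I))) := by
    apply intervalIntegral.integral_congr
    intro x _
    ring
  show (∫ x in a..b, ((c * f (x - σ * Complex.I) + g (x - σ * Complex.I)) -
      (c * f (x + σ * Complex.I) + g (x + σ * Complex.I)))) = _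
  rw [h3, intervalIntegral.integral_add ((h2 f hf).const_mul c) (h2 g hg),
    intervalIntegral.integral_const_mul]

theorem w5l_ver {C : Set ℂ} {c σ : ℝ} (hσ : 0 < σ) (h1 : ∀ z : ℂ, |z.im| ≤ σ → z.re = c → z ∈ C) :
    w5l_L C (fun f => Complex.I * ∫ y in (-σ)..σ, f ((c : ℝ) + y * Complex.I)) := by
  apply w5l_mul
  apply w5l_seg (γ := fun x : ℝ => ((c : ℝ) : ℂ) + x * Complex.I) (by linarith) (by fun_prop)
  intro x hx
  exact h1 _ (by simpa [abs_le] using hx) (by simp)

theorem w5l_pI (N : ℕ) (P G : Set ℤ) (r σ : ℝ) (hN : 0 < N) (hr : 0 < r) (hr' : r < 1 / (4 * N)) (hσ : 0 < σ)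
    (p : Pc N) : w5l_L (cP N P G r σ p) (pI N P G r σ p) := by
  classical
  have hN' : (0 : ℝ) < N := Nat.cast_pos.2 hN
  rcases p with l | l
  · by_cases hG : ((l : ℕ) : ℤ) ∈ G
    · have e1 : pI N P G r σ (Sum.inl l) = fun _ => 0 := by
        funext f
        simp [pI, hG]
      rw [e1]
      exact w5l_zero
    · have e1 : pI N P G r σ (Sum.inl l) = fun f => ∫ x in (((l : ℕ) : ℝ) / N + r)..((((l : ℕ) : ℝ) + 1) / N - r),
          (f (x - σ * Complex.I) - f (x + σ * Complex.I)) := by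
        funext f
        simp [pI, hG, gapI]
      rw [e1]
      refine w5l_hor ?_ hσ ?_
      · have : r * (4 * N) < 1 := by rwa [lt_div_iff₀ (by positivity)] at hr'
        have h2 : r * 2 ≤ 1 / N := by
          rw [le_div_iff₀ hN']
          nlinarith [mul_pos hr hN']
        have h3 : (((l : ℕ) : ℝ) + 1) / N = ((l : ℕ) : ℝ) / N + 1 / N := by ring
        rw [h3]
        linarith
      · intro z h1 h2 h3
        exact ⟨hG, h1, h2, h3⟩
  · by_cases hP : ((l : ℕ) : ℤ) ∈ P
    · have hL : w5l_L (cP N P G r σ (Sum.inr l))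
          (fun f => if (((l : ℕ) : ℤ) - 1) ∈ G then 0 else verL N r σ (l : ℕ) f) := by
        by_cases hG : (((l : ℕ) : ℤ) - 1) ∈ G
        · simp only [hG, if_true]
          exact w5l_zero
        · simp only [hG, if_false]
          have e1 : (fun f => verL N r σ (l : ℕ) f) =
              fun f => Complex.I * ∫ y in (-σ)..σ, f (((((l : ℕ) : ℝ) / N - r : ℝ) : ℂ) + y * Complex.I) := by
            funext f
            simp [verL]
          rw [e1]
          refine w5l_ver hσ fun z h1 h2 => ?_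
          exact Or.inl (Or.inr ⟨hP, hG, h1, h2⟩)
      have hR : w5l_L (cP N P G r σ (Sum.inr l))
          (fun f => if ((l : ℕ) : ℤ) ∈ G then 0 else verR N r σ (l : ℕ) f) := by
        by_cases hG : ((l : ℕ) : ℤ) ∈ G
        · simp only [hG, if_true]
          exact w5l_zero
        · simp only [hG, if_false]
          have e1 : (fun f => verR N r σ (l : ℕ) f) =
              fun f => Complex.I * ∫ y in (-σ)..σ, f (((((l : ℕ) : ℝ) / N + r : ℝ) : ℂ) + y * Complex.I) := by
            funext f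
            simp [verR]
          rw [e1]
          refine w5l_ver hσ fun z h1 h2 => ?_
          exact Or.inr ⟨hP, hG, h1, h2⟩
      have e1 : pI N P G r σ (Sum.inr l) = fun f => (if (((l : ℕ) : ℤ) - 1) ∈ G then 0 else verL N r σ (l : ℕ) f)
          - (if ((l : ℕ) : ℤ) ∈ G then 0 else verR N r σ (l : ℕ) f) := by
        funext f
        simp [pI, hP]
      rw [e1]
      exact w5l_sub hL hR
    · have e1 : pI N P G r σ (Sum.inr l) = fun f => ∫ x in (((l : ℕ) : ℝ) / N - r)..(((l : ℕ) : ℝ) / N + r),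
          (f (x - σ * Complex.I) - f (x + σ * Complex.I)) := by
        funext f
        simp [pI, hP, capI]
      rw [e1]
      refine w5l_hor (by linarith) hσ fun z h1 h2 h3 => ?_
      exact Or.inl (Or.inl ⟨hP, h1, by rw [abs_le]; constructor <;> linarith⟩)

theorem w5l_it (N : ℕ) (P G : Set ℤ) (r σ : ℝ) (hN : 0 < N) (hr : 0 < r) (hr' : r < 1 / (4 * N)) (hσ : 0 < σ)
    (q : ℕ) : ∀ τ : Fin q → Pc N, w5l_L {ζ : Fin q → ℂ | ∀ j, ζ j ∈ cP N P G r σ (τ j)} (itI N P G r σ q τ) := by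
  induction q with
  | zero =>
    intro τ f g c _ _
    rfl
  | succ q ih =>
    intro τ f g c hf hg
    obtain ⟨L1, h1⟩ := w4_it N P G r σ hN hr hr' hσ q (fun i => τ i.succ)
    have hmem : ∀ ζ ∈ cP N P G r σ (τ 0), ∀ v : Fin q → ℂ, (∀ j, v j ∈ cP N P G r σ (τ j.succ)) →
        (Fin.cons ζ v : Fin (q + 1) → ℂ) ∈ {ζ : Fin (q + 1) → ℂ | ∀ j, ζ j ∈ cP N P G r σ (τ j)} := by
      intro ζ hζ v hv j
      refine Fin.cases ?_ (fun i => ?_) j
      · simpa using hζ
      · simpa using hv i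
    have hc : ∀ f : (Fin (q + 1) → ℂ) → ℂ,
        ContinuousOn f {ζ : Fin (q + 1) → ℂ | ∀ j, ζ j ∈ cP N P G r σ (τ j)} →
        ContinuousOn (fun ζ => itI N P G r σ q (fun i => τ i.succ) (fun v => f (Fin.cons ζ v)))
          (cP N P G r σ (τ 0)) := by
      intro f hf
      refine h1.ct ℂ (cP N P G r σ (τ 0)) (fun x v => f (Fin.cons x v)) ?_
      refine hf.comp (f := fun x : ℂ × (Fin q → ℂ) => (Fin.cons x.1 x.2 : Fin (q + 1) → ℂ)) ?_ ?_
      · exact Continuous.continuousOn (w4_cons continuous_fst continuous_snd)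
      · rintro ⟨x, v⟩ ⟨hx, hv⟩
        exact hmem x hx v hv
    have hs : ∀ (f : (Fin (q + 1) → ℂ) → ℂ),
        ContinuousOn f {ζ : Fin (q + 1) → ℂ | ∀ j, ζ j ∈ cP N P G r σ (τ j)} →
        ∀ ζ ∈ cP N P G r σ (τ 0), ContinuousOn (fun v : Fin q → ℂ => f (Fin.cons ζ v))
          {v : Fin q → ℂ | ∀ j, v j ∈ cP N P G r σ (τ j.succ)} := by
      intro f hf ζ hζ
      refine hf.comp (f := fun v : Fin q → ℂ => (Fin.cons ζ v : Fin (q + 1) → ℂ)) ?_ ?_
      · exact Continuous.continuousOn (w4_cons continuous_const continuous_id)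
      · intro v hv
        exact hmem ζ hζ v hv
    show pI N P G r σ (τ 0) (fun ζ => itI N P G r σ q (fun i => τ i.succ)
      (fun v => c * f (Fin.cons ζ v) + g (Fin.cons ζ v))) = _
    have e : pI N P G r σ (τ 0) (fun ζ => itI N P G r σ q (fun i => τ i.succ)
        (fun v => c * f (Fin.cons ζ v) + g (Fin.cons ζ v))) =
        pI N P G r σ (τ 0) (fun ζ => c * itI N P G r σ q (fun i => τ i.succ) (fun v => f (Fin.cons ζ v)) +
          itI N P G r σ q (fun i => τ i.succ) (fun v => g (Fin.cons ζ v))) := by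
      apply w7_congr hN hr hr' hσ
      intro ζ hζ
      exact ih (fun i => τ i.succ) _ _ c (hs f hf ζ hζ) (hs g hg ζ hζ)
    rw [e]
    exact w5l_pI N P G r σ hN hr hr' hσ (τ 0) _ _ c (hc f hf) (hc g hg)

theorem st_W5l (h3 : ST_W3) : ST_W5l := by
  intro N M q P G I k hD hk hI hIq w' w hw' hw hwN
  have hN := hD.pos
  have hN' : (0 : ℝ) < N := Nat.cast_pos.2 hN
  obtain ⟨h0, ρ, C, hh0, hρ, hW3⟩ := h3 N q ((w - w') / 2) hN (by linarith)
  refine ⟨h0, hh0, ?_⟩
  intro h h' hh hhh' hh'0 F K c hF hK z hz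
  have hs1 : Shape N (P ∪ pcl N (I ∪ {((k : ℕ) : ℤ)})) G := hD.sh.union _
  have hsz : Shape N (P ∪ pcl N I) G := hD.sh.union I
  set r := (w' + w) / 2 with hr_def
  set σ := (h' + h) / 2 with hσ_def
  have hr : 0 < r := by rw [hr_def]; linarith
  have hr' : r < 1 / (4 * N) := by rw [hr_def]; linarith
  have hrw : r < w := by rw [hr_def]; linarith
  have hw'r : w' < r := by rw [hr_def]; linarith
  have hσ : 0 < σ := by rw [hσ_def]; linarith
  have hσ' : σ < h' := by rw [hσ_def]; linarith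
  have hhσ : h < σ := by rw [hσ_def]; linarith
  have hgap : w - r = (w - w') / 2 := by rw [hr_def]; ring
  have key : ∀ F : (Fin q → ℂ) → ℂ, BO q (US N (P ∪ pcl N (I ∪ {((k : ℕ) : ℤ)})) G w' h') F →
      ∀ τ : Fin q → Pc N, ContinuousOn
        (fun ζ => F ζ * (Pw k τ z ζ / Sw M τ z ζ) * ∏ j, kap (ζ j - z j))
        {ζ : Fin q → ℂ | ∀ j, ζ j ∈ cP N (P ∪ pcl N (I ∪ {((k : ℕ) : ℤ)})) G r σ (τ j)} := by
    intro F hF τ ζ hζ
    apply ContinuousAt.continuousWithinAt
    apply DifferentiableAt.continuousAt (𝕜 := ℂ)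
    have hζUS : ζ ∈ PU q (US N (P ∪ pcl N (I ∪ {((k : ℕ) : ℤ)})) G w' h') := fun j =>
      w7_cP hN hs1 hw'r hr hr' hσ' (τ j) (hζ j)
    apply w7_diffK
    · refine hF.hol.differentiableAt (IsOpen.mem_nhds ?_ hζUS)
      have e : PU q (US N (P ∪ pcl N (I ∪ {((k : ℕ) : ℤ)})) G w' h') =
          Set.pi Set.univ (fun _ : Fin q => US N (P ∪ pcl N (I ∪ {((k : ℕ) : ℤ)})) G w' h') := by
        ext x
        simp [PU]
      rw [e]
      exact isOpen_set_pi Set.finite_univ (fun _ _ => isOpen_US hN _ _ _ _)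
    · intro hS
      have hex : ∃ i' : Fin N, (i' : ℕ) < M ∧ ((∀ j, τ j ≠ Sum.inr i') ∨
          (((i' : ℕ) : ℤ) ∈ P ∪ pcl N I ∧ ((i' : ℕ) : ℤ) ∈ P ∪ pcl N (I ∪ {((k : ℕ) : ℤ)}))) := by
        rcases hIq with ⟨m, hm⟩ | hqM
        · obtain ⟨h1, h2⟩ := hI m hm
          have hMN := hD.le
          have h6 : (((⟨m.toNat, by omega⟩ : Fin N) : ℕ) : ℤ) = m := Int.toNat_of_nonneg h1
          refine ⟨⟨m.toNat, by omega⟩, ?_, Or.inr ⟨?_, ?_⟩⟩
          · show m.toNat < M
            omega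
          · rw [h6]
            exact Or.inr (subset_pcl N I hm)
          · rw [h6]
            exact Or.inr (subset_pcl N _ (Or.inl hm))
        · obtain ⟨i', hi', h5⟩ := w7_pigeon hD.le hqM τ
          exact ⟨i', hi', Or.inl h5⟩
      obtain ⟨i', hi', hcase⟩ := hex
      have h5 := (hW3 M τ z ζ (fun j => (((hz j).1).le.trans (by linarith)))
        (fun j => (((hζUS j).1).le.trans (by linarith))) ⟨i', hi', ?_⟩).1
      · rw [hS, Complex.zero_re] at h5
        linarith
      · intro j hj t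
        rcases hcase with h6 | ⟨h6, h7⟩
        · exact absurd hj (h6 j)
        · have h8 : |(ζ j).re - ((((i' : ℕ) : ℤ) : ℝ)) / N| ≤ r := by
            have h9 := hζ j
            rw [hj] at h9
            push_cast
            rcases h9 with (⟨h13, _⟩ | ⟨_, _, _, h14⟩) | ⟨_, _, _, h14⟩
            · exact absurd h7 h13
            · rw [h14, sub_sub_cancel_left, abs_neg, abs_of_pos hr]
            · rw [h14, add_sub_cancel_left, abs_of_pos hr]
          have h15 := w7_sep hN hsz.perP h6 h8 (hz j) t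
          rw [hgap] at h15
          exact h15
    · intro j hj t ht
      refine w7_avoid hN hsz.perP hr hrw hhσ (τ j) (fun l hl hlP => ?_) (hζ j) (hz j) t ht
      rw [pcl_union, ← Set.union_assoc] at hlP
      rcases hlP with h5 | ⟨t', ht'⟩
      · exact h5
      · exfalso
        apply hj
        rw [hl]
        rw [Set.mem_singleton_iff] at ht'
        rw [w7_red l k t' ht']
  unfold eop
  rw [Finset.mul_sum, ← Finset.sum_add_distrib]
  refine Finset.sum_congr rfl fun τ _ => ?_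
  have h9 := w5l_it N (P ∪ pcl N (I ∪ {((k : ℕ) : ℤ)})) G r σ hN hr hr' hσ q τ _ _ c (key F hF τ) (key K hK τ)
  rw [← h9]
  congr 1
  funext ζ
  ring

end

end Pool.Agent.Helper67.DO
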